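import Pool.Agent.HIP.Stmts

/-! HIP, module EXI (helper67): edit of `Helper84_HIK/EXO.lean` with an irreducible polynomial. -/

set_option autoImplicit false

namespace Pool.Agent.HIP.H67

open Polynomial NumberField Pool.Agent.MTL Pool.Agent.HIK Pool.Agent.HIK.H84 Pool.Agent.HIP

/-- irreducibility over one fraction field gives irreducibility over the other -/
theorem irr_frac {A E : Type} [CommRing A] [IsDomain A] [Field E] [Algebra A E] [IsFractionRing A E]
    (g : A[X]) (h : Irreducible (g.map (algebraMap A E))) :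
    Irreducible (g.map (algebraMap A (FractionRing A))) := by
  let e : E ≃ₐ[A] FractionRing A := (FractionRing.algEquiv A E).symm
  have h1 : g.map (algebraMap A (FractionRing A)) =
      Polynomial.mapEquiv e.toRingEquiv (g.map (algebraMap A E)) := by
    rw [Polynomial.mapEquiv_apply, Polynomial.map_map]
    congr 1
    ext a
    exact (e.commutes a).symm
  rw [h1, MulEquiv.irreducible_iff]
  exact h

/-- module EXI -/
theorem exi (hAli : AliStmt) : ExiStmt := by
  intro K _ _ φ H hH hle
  obtain ⟨hinj, hmem⟩ := H80.frk K φ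
  obtain ⟨-, hcl, -⟩ := gpfA K φ
  let A := (𝓞 K)[X]
  let E := EE φ
  have hc : IsClosed ((H ⊓ Gph φ : Subgroup GT) : Set GT) := by
    rw [Subgroup.coe_inf]
    exact hH.inter hcl
  have h1 : ¬ IntermediateField.fixedField (H ⊓ Gph φ) ≤ E := by
    intro h
    apply hle
    have h2 := InfiniteGalois.fixingSubgroup_fixedField (k := RatFunc ℚ) (K := Om) ⟨H ⊓ Gph φ, hc⟩
    change (IntermediateField.fixedField (H ⊓ Gph φ)).fixingSubgroup = H ⊓ Gph φ at h2
    have h3 := (gph_le φ).trans (IntermediateField.fixingSubgroup_le h)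
    rw [h2] at h3
    exact h3.trans inf_le_left
  obtain ⟨y, hyD, hy⟩ := SetLike.not_le_iff_exists.1 h1
  let alg1 : Algebra A E := ((kph φ).comp (mapRingHom (algebraMap (𝓞 K) K))).toAlgebra
  let alg2 : Algebra A Om := (zph φ).toAlgebra
  have hmap : ∀ P : A, ((algebraMap A E P : E) : Om) = zph φ P := fun P => kph_coe φ P
  have tower : @IsScalarTower A E Om alg1.toSMul _ alg2.toSMul :=
    @IsScalarTower.of_algebraMap_eq A E Om _ _ _ alg1 _ alg2 fun P => (hmap P).symm
  have hf : FaithfulSMul A E := by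
    rw [faithfulSMul_iff_algebraMap_injective]
    intro P Q h
    apply hinj
    rw [← hmap, ← hmap, h]
  have hfr : IsFractionRing A E := by
    refine IsFractionRing.of_field A E fun z => ?_
    obtain ⟨F, G, -, hz⟩ := (hmem z).1 z.2
    refine ⟨F, G, ?_⟩
    apply Subtype.ext
    rw [hz, ← hmap, ← hmap]
    rfl
  have hch : CharZero E := inferInstance
  have hyalg : IsAlgebraic E y :=
    (Algebra.IsAlgebraic.isAlgebraic (R := RatFunc ℚ) y).tower_top E
  obtain ⟨s, g, hs, hm, hg, hdeg, hirr, P, Q, r, hr, hPQ⟩ := hAli A E Om y hyalg (by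
    rintro ⟨z, rfl⟩
    exact hy z.2)
  refine ⟨zph φ s * y, g, ⟨hm, hdeg, irr_frac (A := A) (E := E) g hirr, P, Q, r, hr, hPQ⟩, hg, ?_⟩
  intro σ hσH hσ
  rw [map_mul, gph_zph φ σ hσ]
  congr 1
  exact hyD ⟨σ, hσH, hσ⟩

end Pool.Agent.HIP.H67
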